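import Mathlib
import Pool.Agent.TH516.SH.SimplexSharp

set_option autoImplicit false

/-!
# Covering shadows: the sharp constant when the covering body is a simplex

For an `n`-simplex `L` (`n ≥ 2`) the largest possible value of `V(K) / V(L)`, over all convex bodies
`K` whose shadows are covered by `L`, is
`c_n = ((n+1)/(n-1)) (2 ((n+1)/n)^(1/(n-1)) - 1)^(-(n-1))`, which is `1.1665` for `n = 3` and
`1 + O(1/n^2)` for `n → ∞`; the bound known before was `n/(n-1)`.

Upper bound: after a translation all barycentric coordinates `λ_i` of `L` have the same minimum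
`-ε` over `K`, and the shadow of `K` along the edge `ij` of `L` gives `λ_i + λ_j ≥ (n-1) ε` on `K`;
the volume of this truncated simplex is computed exactly and maximised over `ε`. Attained: `L`
covers the shadows of the truncated simplex (for the direction `u` translate by the vector that
adds `ε` to all coordinates except the one with the largest `|dλ_i(u)|`).

Consequently the bound `V(K) ≤ (n/(n-1)) V(L)` of Q1 holds for every `L` that lies in a simplex of
volume at most `(n/((n-1) c_n)) V(L)`.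
-/

namespace Pool.Agent.Results.MP_7818d0_gt.SimplexConstant

open MeasureTheory

/-- The shadow `K_u`: the orthogonal projection of `K` onto the hyperplane orthogonal to the unit
vector `u`. -/
def shadow {n : ℕ} (u : EuclideanSpace ℝ (Fin n)) (K : Set (EuclideanSpace ℝ (Fin n))) :
    Set (EuclideanSpace ℝ (Fin n)) :=
  (fun x => x - (inner ℝ u x) • u) '' K

/-- `L` covers the shadows of `K`: for every unit vector `u` some translate of `K_u`, by a vector
orthogonal to `u`, is contained in `L_u`. -/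
def CoversShadows {n : ℕ} (L K : Set (EuclideanSpace ℝ (Fin n))) : Prop :=
  ∀ u : EuclideanSpace ℝ (Fin n), ‖u‖ = 1 →
    ∃ v : EuclideanSpace ℝ (Fin n), inner ℝ u v = 0 ∧ ∀ x ∈ shadow u K, x + v ∈ shadow u L

/-- The constant `c_n = ((n+1)/(n-1)) / (2 ((n+1)/n)^(1/(n-1)) - 1)^(n-1)`. -/
noncomputable def cst (n : ℕ) : ℝ :=
  (((n : ℝ) + 1) / (n - 1)) / (2 * (((n : ℝ) + 1) / n) ^ (1 / ((n : ℝ) - 1)) - 1) ^ (n - 1)

theorem rho_facts (n : ℕ) (hn : 2 ≤ n) :
    1 ≤ (((n : ℝ) + 1) / n) ^ (1 / ((n : ℝ) - 1)) ∧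
      ((((n : ℝ) + 1) / n) ^ (1 / ((n : ℝ) - 1))) ^ (n - 1) = ((n : ℝ) + 1) / n := by
  have hn2 : (2 : ℝ) ≤ n := by exact_mod_cast hn
  have h1 : 1 ≤ ((n : ℝ) + 1) / n := by
    rw [le_div_iff₀ (by linarith)]
    linarith
  refine ⟨Real.one_le_rpow h1 (div_nonneg zero_le_one (by linarith)), ?_⟩
  rw [← Real.rpow_natCast, ← Real.rpow_mul (by positivity)]
  have h2 : ((n - 1 : ℕ) : ℝ) = (n : ℝ) - 1 := by
    rw [Nat.cast_sub (by omega), Nat.cast_one]
  rw [h2, one_div, inv_mul_cancel₀ (by linarith), Real.rpow_one]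

theorem cst_lt (n : ℕ) (hn : 2 ≤ n) : cst n < (n : ℝ) / (n - 1) := by
  have hn2 : (2 : ℝ) ≤ n := by exact_mod_cast hn
  have hn1 : (0 : ℝ) < (n : ℝ) - 1 := by linarith
  obtain ⟨-, hρn⟩ := rho_facts n hn
  have h1 : 1 < ((n : ℝ) + 1) / n := by
    rw [lt_div_iff₀ (by linarith)]
    linarith
  have hρ1 : 1 < (((n : ℝ) + 1) / n) ^ (1 / ((n : ℝ) - 1)) :=
    Real.one_lt_rpow h1 (div_pos one_pos hn1)
  unfold cst
  set ρ : ℝ := (((n : ℝ) + 1) / n) ^ (1 / ((n : ℝ) - 1)) with hρd
  have h2 : ρ ^ (n - 1) < (2 * ρ - 1) ^ (n - 1) :=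
    pow_lt_pow_left₀ (by linarith) (by linarith) (by omega)
  have h3 : ((n : ℝ) + 1) / (n - 1) = (n : ℝ) / (n - 1) * ρ ^ (n - 1) := by
    rw [hρn]
    field_simp
  rw [div_lt_iff₀ (pow_pos (by linarith) _), h3]
  exact mul_lt_mul_of_pos_left h2 (div_pos (by linarith) hn1)

/-- **Sharp constant for simplices.** -/
theorem result (n : ℕ) (hn : 2 ≤ n) (p : Fin (n + 1) → EuclideanSpace ℝ (Fin n))
    (hp : AffineIndependent ℝ p) :
    cst n < (n : ℝ) / (n - 1) ∧
    (∀ K : Set (EuclideanSpace ℝ (Fin n)), IsCompact K → Convex ℝ K → K.Nonempty →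
      CoversShadows (convexHull ℝ (Set.range p)) K →
        volume.real K ≤ cst n * volume.real (convexHull ℝ (Set.range p))) ∧
    (∃ K : Set (EuclideanSpace ℝ (Fin n)), IsCompact K ∧ Convex ℝ K ∧ K.Nonempty ∧
      CoversShadows (convexHull ℝ (Set.range p)) K ∧
        volume.real K = cst n * volume.real (convexHull ℝ (Set.range p))) ∧
    (∀ K L : Set (EuclideanSpace ℝ (Fin n)), IsCompact K → Convex ℝ K → K.Nonempty →
      L ⊆ convexHull ℝ (Set.range p) → CoversShadows L K →
        cst n * volume.real (convexHull ℝ (Set.range p)) ≤ ((n : ℝ) / (n - 1)) * volume.real L →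
        volume.real K ≤ ((n : ℝ) / (n - 1)) * volume.real L) := by
  have hn2 : (2 : ℝ) ≤ n := by exact_mod_cast hn
  obtain ⟨hρ, hρn⟩ := rho_facts n hn
  have hspan : affineSpan ℝ (Set.range p) = ⊤ := by
    rw [hp.affineSpan_eq_top_iff_card_eq_finrank_add_one]
    simp
  set b : AffineBasis (Fin (n + 1)) ℝ (EuclideanSpace ℝ (Fin n)) := ⟨p, hp, hspan⟩ with hb
  have hbp : Set.range p = Set.range b := rfl
  rw [hbp]
  have hup : ∀ K : Set (EuclideanSpace ℝ (Fin n)), IsCompact K → Convex ℝ K → K.Nonempty →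
      CoversShadows (convexHull ℝ (Set.range b)) K →
        volume.real K ≤ cst n * volume.real (convexHull ℝ (Set.range b)) := by
    intro K hK _ hKn hc
    refine Pool.Agent.TH516.SH.Simplex.upper b hn _ hρ hρn K hK hKn ?_
    intro i j hij
    have hne : b i - b j ≠ 0 := by
      rw [sub_ne_zero]
      intro h
      exact hij (b.ind.injective h).symm
    have hnorm : ‖b i - b j‖ ≠ 0 := norm_ne_zero_iff.2 hne
    set u : EuclideanSpace ℝ (Fin n) := (‖b i - b j‖)⁻¹ • (b i - b j) with hu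
    have hu1 : ‖u‖ = 1 := by
      rw [hu, norm_smul, norm_inv, norm_norm, inv_mul_cancel₀ hnorm]
    obtain ⟨v, -, hv⟩ := hc u hu1
    have hlu : ∀ k, (b.coord k).linear u =
        (‖b i - b j‖)⁻¹ * ((if i = k then 1 else 0) - (if j = k then 1 else 0)) := by
      intro k
      rw [hu, map_smul, smul_eq_mul, Pool.Agent.TH516.SH.Simplex.lin_sub, b.coord_apply,
        b.coord_apply]
      congr 1
      congr 1 <;> simp only [eq_comm]
    refine ⟨v, fun x hx => ?_⟩
    obtain ⟨y, hy, hxy⟩ := hv _ ⟨x, hx, rfl⟩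
    rw [Pool.Agent.TH516.SH.Simplex.simplex_eq] at hy
    simp only at hxy
    have hy' : y = x + v + ((inner ℝ u y : ℝ) - inner ℝ u x) • u := by
      rw [sub_smul]
      have h1 : y = (y - (inner ℝ u y : ℝ) • u) + (inner ℝ u y : ℝ) • u := by abel
      rw [hxy] at h1
      calc y = x - (inner ℝ u x : ℝ) • u + v + (inner ℝ u y : ℝ) • u := h1
        _ = _ := by abel
    have hcoord : ∀ k, b.coord k y = b.coord k x + (b.coord k).linear v +
        ((inner ℝ u y : ℝ) - inner ℝ u x) * (b.coord k).linear u := by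
      intro k
      conv_lhs => rw [hy']
      rw [Pool.Agent.TH516.SH.Simplex.coord_add, Pool.Agent.TH516.SH.Simplex.coord_add, map_smul,
        smul_eq_mul]
    refine ⟨fun k hki hkj => ?_, ?_⟩
    · have h1 := hcoord k
      rw [hlu, if_neg (fun h => hki h.symm), if_neg (fun h => hkj h.symm)] at h1
      have h2 := hy k
      rw [h1] at h2
      linarith
    · have h1 := hcoord i
      have h2 := hcoord j
      rw [hlu, if_pos rfl, if_neg hij] at h1
      rw [hlu, if_pos rfl, if_neg (fun h => hij h.symm)] at h2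
      have h3 := hy i
      have h4 := hy j
      rw [h1] at h3
      rw [h2] at h4
      linarith
  refine ⟨cst_lt n hn, hup, ?_, fun K L hK hKc hKn hLS hc hV => ?_⟩
  swap
  · refine (hup K hK hKc hKn fun u hu => ?_).trans hV
    obtain ⟨v, hv0, hv⟩ := hc u hu
    exact ⟨v, hv0, fun x hx => Set.image_mono hLS (hv x hx)⟩
  -- the extremal body
  set ρ : ℝ := (((n : ℝ) + 1) / n) ^ (1 / ((n : ℝ) - 1)) with hρd
  have h2ρ : 0 < 2 * ρ - 1 := by linarith
  have hn1 : (0 : ℝ) < (n : ℝ) ^ 2 - 1 := by nlinarith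
  set θ : ℝ := 2 * (ρ - 1) / (2 * ρ - 1) with hθ
  have hθ0 : 0 ≤ θ := div_nonneg (by linarith) h2ρ.le
  have hθ1 : θ < 1 := by
    rw [hθ, div_lt_one h2ρ]
    linarith
  set ε : ℝ := θ / ((n : ℝ) ^ 2 - 1) with hε
  have hε0 : 0 ≤ ε := div_nonneg hθ0 hn1.le
  have hθε : θ = ((n : ℝ) ^ 2 - 1) * ε := by
    rw [hε]
    field_simp
  have hcov : CoversShadows (convexHull ℝ (Set.range b))
      (Pool.Agent.TH516.SH.Simplex.Trunc b ε) := by
    intro u hu
    have hu0 : u ≠ 0 := by
      rintro rfl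
      simp at hu
    obtain ⟨v, hv⟩ := Pool.Agent.TH516.SH.Simplex.trunc_cover b ε hε0 u hu0
    have huu : (inner ℝ u u : ℝ) = 1 := by
      rw [real_inner_self_eq_norm_sq, hu]
      norm_num
    refine ⟨v - (inner ℝ u v : ℝ) • u, ?_, ?_⟩
    · rw [inner_sub_right, inner_smul_right, huu]
      ring
    · rintro _ ⟨x, hx, rfl⟩
      obtain ⟨s, hs⟩ := hv x hx
      refine ⟨x + v + s • u, ?_, ?_⟩
      · rw [Pool.Agent.TH516.SH.Simplex.simplex_eq]
        exact hs
      · simp only
        rw [inner_add_right, inner_add_right, inner_smul_right, huu, mul_one, add_smul, add_smul]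
        abel
  have hcomp := Pool.Agent.TH516.SH.Simplex.trunc_compact b ε hε0
  have hconv := Pool.Agent.TH516.SH.Simplex.trunc_convex b ε
  have hne := Pool.Agent.TH516.SH.Simplex.trunc_nonempty b hn ε hε0 (by rw [← hθε]; exact hθ1.le)
  refine ⟨Pool.Agent.TH516.SH.Simplex.Trunc b ε, hcomp, hconv, hne, hcov, ?_⟩
  apply le_antisymm (hup _ hcomp hconv hne hcov)
  have h1 := Pool.Agent.TH516.SH.Simplex.trunc_vol b hn ε θ hθε hε0 hθ1
  rw [hθ, Pool.Agent.TH516.SH.Simplex.num_eq hn ρ hρ hρn,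
    ← Pool.Agent.TH516.SH.Simplex.simplex_eq] at h1
  exact h1

end Pool.Agent.Results.MP_7818d0_gt.SimplexConstant
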